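import Mathlib
import Pool.Agent.Q142.Expl
import Pool.Agent.Q142.Vert

set_option autoImplicit false

namespace Pool.Agent.Results.MP_52b7e0_co.TetrahedralGap

open Q142

/-- The symmetry group in `O(3)` of a set. -/
def fullGroup (S : Set (Sp 3)) : Set (Sp 3 ≃ₗᵢ[ℝ] Sp 3) := {A | A '' S = S}

/-- The group of rotations (determinant one) preserving a set. -/
def rotGroup (S : Set (Sp 3)) : Set (Sp 3 ≃ₗᵢ[ℝ] Sp 3) :=
  {A | A '' S = S ∧ LinearMap.det (A.toLinearEquiv : Sp 3 →ₗ[ℝ] Sp 3) = 1}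

/-- `F(G)`: the pairs (number of vertices, number of facets) of the `G`-symmetric
3-polytopes. -/
def fvecs (G : Set (Sp 3 ≃ₗᵢ[ℝ] Sp 3)) : Set (ℕ × ℕ) :=
  {f | ∃ P : Set (Sp 3), IsPolytope P ∧ (interior P).Nonempty ∧ (∀ A ∈ G, A '' P = P) ∧
    (vertices P).ncard = f.1 ∧ (facets P).ncard = f.2}

/-- The regular tetrahedron centred at the origin with vertices `(1,1,1)`, `(1,-1,-1)`,
`(-1,1,-1)`, `(-1,-1,1)`. -/
noncomputable def tetrahedron : Set (Sp 3) :=
  convexHull ℝ {!₂[(1 : ℝ), 1, 1], !₂[(1 : ℝ), -1, -1], !₂[(-1 : ℝ), 1, -1], !₂[(-1 : ℝ), -1, 1]}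

/-- vertices of the tetrahedron -/
def tv : Fin 4 → Fin 3 → ℤ := ![![1, 1, 1], ![1, -1, -1], ![-1, 1, -1], ![-1, -1, 1]]

lemma tet_eq : tetrahedron = poly (pt tv) := by
  unfold tetrahedron poly
  congr 1
  ext v
  simp only [Set.mem_insert_iff, Set.mem_singleton_iff, Set.mem_range]
  constructor
  · rintro (rfl | rfl | rfl | rfl)
    · exact ⟨0, by ext c; fin_cases c <;> simp [pt, tv]⟩
    · exact ⟨1, by ext c; fin_cases c <;> simp [pt, tv]⟩
    · exact ⟨2, by ext c; fin_cases c <;> simp [pt, tv]⟩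
    · exact ⟨3, by ext c; fin_cases c <;> simp [pt, tv]⟩
  · rintro ⟨k, rfl⟩
    fin_cases k
    · left; ext c; fin_cases c <;> simp [pt, tv]
    · right; left; ext c; fin_cases c <;> simp [pt, tv]
    · right; right; left; ext c; fin_cases c <;> simp [pt, tv]
    · right; right; right; ext c; fin_cases c <;> simp [pt, tv]

lemma tet_vert (i : Fin 4) : pt tv i ∈ vertices tetrahedron := by
  have h1 : ∀ i k : Fin 4, k ≠ i → ∑ c, tv i c * tv k c < ∑ c, tv i c * tv i c := by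
    decide +kernel
  have h := (exposed_of_functional (pt tv) {i} (lin (tv i)) (lin (tv i) (pt tv i)) (by
    intro k hk
    rw [Finset.mem_singleton.1 hk]) (by
    intro k hk
    rw [lin_pt, lin_pt]
    exact_mod_cast h1 i k (by simpa using hk))).1
  have h2 : hull (pt tv) {i} = {pt tv i} := by simp [hull]
  rw [h2] at h
  rw [tet_eq]
  exact h

/-- an isometry preserving the tetrahedron permutes its vertices -/
lemma tet_perm {A : Sp 3 ≃ₗᵢ[ℝ] Sp 3} (hA : A '' tetrahedron = tetrahedron) :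
    ∃ σ : Fin 4 → Fin 4, ∀ i, A (pt tv i) = pt tv (σ i) := by
  have : ∀ i, ∃ j, A (pt tv i) = pt tv j := by
    intro i
    have h1 := vertex_image A hA (tet_vert i)
    rw [tet_eq] at h1
    obtain ⟨j, hj⟩ := nonempty_ind (pt tv) h1 ⟨_, rfl⟩
    exact ⟨j, (Set.mem_singleton_iff.1 hj).symm⟩
  choose σ hσ using this
  exact ⟨σ, hσ⟩

/-- the integer matrix of the symmetry with vertex permutation given by `a b c d` -/
def mat (a b c d : Fin 4) : Matrix (Fin 3) (Fin 3) ℤ :=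
  fun r k => (tv a r + tv (![b, c, d] k) r) / 2

/-- The 12 vertices of the (pyritohedral) icosahedron: `(0, ±1, ±2)` and cyclic shifts. -/
def xs : Fin 12 → Fin 3 → ℤ :=
  ![![0, 1, 2], ![0, 1, -2], ![0, -1, 2], ![0, -1, -2], ![1, 2, 0], ![1, -2, 0], ![-1, 2, 0], ![-1, -2, 0], ![2, 0, 1], ![-2, 0, 1], ![2, 0, -1], ![-2, 0, -1]]

/-- The normals of its 20 facets. -/
def As : Fin 20 → Fin 3 → ℤ :=
  ![![1, 1, 1], ![1, 1, -1], ![1, -1, 1], ![1, -1, -1], ![-1, 1, 1], ![-1, 1, -1], ![-1, -1, 1], ![-1, -1, -1], ![1, 0, 2], ![1, 0, -2], ![-1, 0, 2], ![-1, 0, -2], ![0, 2, 1], ![0, -2, 1], ![0, 2, -1], ![0, -2, -1], ![2, 1, 0], ![-2, 1, 0], ![2, -1, 0], ![-2, -1, 0]]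

/-- The right hand sides. -/
def bs : Fin 20 → ℤ := ![3, 3, 3, 3, 3, 3, 3, 3, 4, 4, 4, 4, 4, 4, 4, 4, 4, 4, 4, 4]

/-- The vertex sets of the facets. -/
def Is : Fin 20 → Finset (Fin 12) :=
  ![{0, 4, 8}, {1, 4, 10}, {2, 5, 8}, {3, 5, 10}, {0, 6, 9}, {1, 6, 11}, {2, 7, 9}, {3, 7, 11}, {0, 2, 8}, {1, 3, 10}, {0, 2, 9}, {1, 3, 11}, {0, 4, 6}, {2, 5, 7}, {1, 4, 6}, {3, 5, 7}, {4, 8, 10}, {6, 9, 11}, {5, 8, 10}, {7, 9, 11}]

/-- functionals exposing the vertices -/
def vf : Fin 12 → Fin 3 → ℤ :=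
  ![![0, 14, 23], ![0, 14, -23], ![0, -14, 23], ![0, -14, -23], ![14, 23, 0], ![14, -23, 0], ![-14, 23, 0], ![-14, -23, 0], ![23, 0, 14], ![-23, 0, 14], ![23, 0, -14], ![-23, 0, -14]]

/-- a vertex off each facet -/
def js : Fin 20 → Fin 12 := ![1, 0, 0, 0, 1, 0, 0, 0, 1, 0, 1, 0, 1, 0, 0, 0, 0, 0, 0, 0]

/-- denominators -/
def Ds : Fin 20 → ℤ := ![12, 12, 6, 18, 12, 12, 6, 18, 8, 8, 8, 8, 4, 4, 4, 8, 6, 6, 10, 10]

/-- affine dependences showing that a facet and a vertex off it span the space -/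
def us : Fin 20 → Fin 3 → Fin 12 → ℤ :=
  ![![![-5, -3, 0, 0, 4, 0, 0, 0, 4, 0, 0, 0], ![-1, -3, 0, 0, 8, 0, 0, 0, -4, 0, 0, 0], ![3, -3, 0, 0, 0, 0, 0, 0, 0, 0, 0, 0]],
    ![![-3, -5, 0, 0, 4, 0, 0, 0, 0, 0, 4, 0], ![-3, -1, 0, 0, 8, 0, 0, 0, 0, 0, -4, 0], ![3, -3, 0, 0, 0, 0, 0, 0, 0, 0, 0, 0]],
    ![![-3, 0, 1, 0, 0, -2, 0, 0, 4, 0, 0, 0], ![3, 0, -3, 0, 0, 0, 0, 0, 0, 0, 0, 0], ![-3, 0, 5, 0, 0, -4, 0, 0, 2, 0, 0, 0]],
    ![![-3, 0, 0, -7, 0, 2, 0, 0, 0, 0, 8, 0], ![3, 0, 0, 1, 0, -8, 0, 0, 0, 0, 4, 0], ![3, 0, 0, -5, 0, 4, 0, 0, 0, 0, -2, 0]],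
    ![![5, 3, 0, 0, 0, 0, -4, 0, 0, -4, 0, 0], ![-1, -3, 0, 0, 0, 0, 8, 0, 0, -4, 0, 0], ![3, -3, 0, 0, 0, 0, 0, 0, 0, 0, 0, 0]],
    ![![3, 5, 0, 0, 0, 0, -4, 0, 0, 0, 0, -4], ![-3, -1, 0, 0, 0, 0, 8, 0, 0, 0, 0, -4], ![3, -3, 0, 0, 0, 0, 0, 0, 0, 0, 0, 0]],
    ![![3, 0, -1, 0, 0, 0, 0, 2, 0, -4, 0, 0], ![3, 0, -3, 0, 0, 0, 0, 0, 0, 0, 0, 0], ![-3, 0, 5, 0, 0, 0, 0, -4, 0, 2, 0, 0]],
    ![![3, 0, 0, 7, 0, 0, 0, -2, 0, 0, 0, -8], ![3, 0, 0, 1, 0, 0, 0, -8, 0, 0, 0, 4], ![3, 0, 0, -5, 0, 0, 0, 4, 0, 0, 0, -2]],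
    ![![-1, -1, -2, 0, 0, 0, 0, 0, 4, 0, 0, 0], ![4, 0, -4, 0, 0, 0, 0, 0, 0, 0, 0, 0], ![2, -2, 0, 0, 0, 0, 0, 0, 0, 0, 0, 0]],
    ![![-1, -1, 0, -2, 0, 0, 0, 0, 0, 0, 4, 0], ![0, 4, 0, -4, 0, 0, 0, 0, 0, 0, 0, 0], ![2, -2, 0, 0, 0, 0, 0, 0, 0, 0, 0, 0]],
    ![![1, 1, 2, 0, 0, 0, 0, 0, 0, -4, 0, 0], ![4, 0, -4, 0, 0, 0, 0, 0, 0, 0, 0, 0], ![2, -2, 0, 0, 0, 0, 0, 0, 0, 0, 0, 0]],
    ![![1, 1, 0, 2, 0, 0, 0, 0, 0, 0, 0, -4], ![0, 4, 0, -4, 0, 0, 0, 0, 0, 0, 0, 0], ![2, -2, 0, 0, 0, 0, 0, 0, 0, 0, 0, 0]],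
    ![![0, 0, 0, 0, 2, 0, -2, 0, 0, 0, 0, 0], ![-2, -2, 0, 0, 2, 0, 2, 0, 0, 0, 0, 0], ![1, -1, 0, 0, 0, 0, 0, 0, 0, 0, 0, 0]],
    ![![0, 0, 0, 0, 0, 2, 0, -2, 0, 0, 0, 0], ![2, 0, -2, 0, 0, 0, 0, 0, 0, 0, 0, 0], ![-1, 0, 3, 0, 0, -1, 0, -1, 0, 0, 0, 0]],
    ![![0, 0, 0, 0, 2, 0, -2, 0, 0, 0, 0, 0], ![-2, -2, 0, 0, 2, 0, 2, 0, 0, 0, 0, 0], ![1, -1, 0, 0, 0, 0, 0, 0, 0, 0, 0, 0]],
    ![![0, 0, 0, 0, 0, 4, 0, -4, 0, 0, 0, 0], ![2, 0, 0, 2, 0, -2, 0, -2, 0, 0, 0, 0], ![1, 0, 0, -3, 0, 1, 0, 1, 0, 0, 0, 0]],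
    ![![-4, 0, 0, 0, 2, 0, 0, 0, 5, 0, -3, 0], ![-2, 0, 0, 0, 4, 0, 0, 0, 1, 0, -3, 0], ![0, 0, 0, 0, 0, 0, 0, 0, 3, 0, -3, 0]],
    ![![4, 0, 0, 0, 0, 0, -2, 0, 0, -5, 0, 3], ![-2, 0, 0, 0, 0, 0, 4, 0, 0, 1, 0, -3], ![0, 0, 0, 0, 0, 0, 0, 0, 0, 3, 0, -3]],
    ![![-4, 0, 0, 0, 0, -2, 0, 0, 7, 0, -1, 0], ![2, 0, 0, 0, 0, -4, 0, 0, -1, 0, 3, 0], ![0, 0, 0, 0, 0, 0, 0, 0, 5, 0, -5, 0]],
    ![![4, 0, 0, 0, 0, 0, 0, 2, 0, -7, 0, 1], ![2, 0, 0, 0, 0, 0, 0, -4, 0, -1, 0, 3], ![0, 0, 0, 0, 0, 0, 0, 0, 0, 5, 0, -5]]]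

set_option maxRecDepth 20000 in
lemma cert : FCert xs As bs Is where
  ne := by decide +kernel
  on := by decide +kernel
  off := by decide +kernel
  span := by
    intro k
    refine ⟨js k, Ds k, us k, ?_, ?_, ?_, ?_, ?_⟩
    · revert k; decide +kernel
    · revert k; decide +kernel
    · revert k; decide +kernel
    · revert k; decide +kernel
    · revert k; decide +kernel

lemma vert (i : Fin 12) : pt xs i ∈ vertices (poly (pt xs)) := by
  have h1 : ∀ i k : Fin 12, k ≠ i → ∑ c, vf i c * xs k c < ∑ c, vf i c * xs i c := by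
    decide +kernel
  have h := (exposed_of_functional (pt xs) {i} (lin (vf i)) (lin (vf i) (pt xs i)) (by
    intro k hk
    rw [Finset.mem_singleton.1 hk]) (by
    intro k hk
    rw [lin_pt, lin_pt]
    exact_mod_cast h1 i k (by simpa using hk))).1
  have h2 : hull (pt xs) {i} = {pt xs i} := by simp [hull]
  rwa [h2] at h

lemma pt_inj : Function.Injective (pt xs) := by
  have h5 : ∀ i j : Fin 12, i ≠ j → ∃ c, xs i c ≠ xs j c := by decide +kernel
  intro i j hij
  by_contra hne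
  obtain ⟨c, hc⟩ := h5 i j hne
  apply hc
  have h6 := congrArg (fun w : Sp 3 => w c) hij
  simp only [pt] at h6
  exact_mod_cast h6

lemma Is_inj : Function.Injective Is := by
  have : ∀ a b : Fin 20, Is a = Is b → a = b := by decide +kernel
  exact this

lemma mem_half {x y : Sp 3} (hx : x ∈ poly (pt xs)) (hy : y ∈ poly (pt xs)) {z : Sp 3}
    (hz : ∀ c, 2 * z c = x c + y c) : z ∈ poly (pt xs) := by
  have : z = (1 / 2 : ℝ) • x + (1 / 2 : ℝ) • y := by
    ext c
    have := hz c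
    simp
    linarith
  rw [this]
  exact (convex_convexHull ℝ _) hx hy (by norm_num) (by norm_num) (by norm_num)

/-- the sign-symmetric points -/
lemma sgn_pts (s t : ℝ) (hs : s = 1 ∨ s = -1) (ht : t = 1 ∨ t = -1) :
    !₂[(0 : ℝ), s, 2 * t] ∈ poly (pt xs) ∧ !₂[s, 2 * t, (0 : ℝ)] ∈ poly (pt xs) ∧
      !₂[2 * t, (0 : ℝ), s] ∈ poly (pt xs) := by
  have h0 : ∀ i, pt xs i ∈ poly (pt xs) := mem_poly _
  rcases hs with rfl | rfl <;> rcases ht with rfl | rfl
  · refine ⟨?_, ?_, ?_⟩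
    · convert h0 0 using 1; ext c; fin_cases c <;> simp [pt, xs]
    · convert h0 4 using 1; ext c; fin_cases c <;> simp [pt, xs]
    · convert h0 8 using 1; ext c; fin_cases c <;> simp [pt, xs]
  · refine ⟨?_, ?_, ?_⟩
    · convert h0 1 using 1; ext c; fin_cases c <;> simp [pt, xs]
    · convert h0 5 using 1; ext c; fin_cases c <;> simp [pt, xs]
    · convert h0 9 using 1; ext c; fin_cases c <;> simp [pt, xs]
  · refine ⟨?_, ?_, ?_⟩
    · convert h0 2 using 1; ext c; fin_cases c <;> simp [pt, xs]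
    · convert h0 6 using 1; ext c; fin_cases c <;> simp [pt, xs]
    · convert h0 10 using 1; ext c; fin_cases c <;> simp [pt, xs]
  · refine ⟨?_, ?_, ?_⟩
    · convert h0 3 using 1; ext c; fin_cases c <;> simp [pt, xs]
    · convert h0 7 using 1; ext c; fin_cases c <;> simp [pt, xs]
    · convert h0 11 using 1; ext c; fin_cases c <;> simp [pt, xs]

lemma comb {p q r z v : Sp 3} (hp : p ∈ poly (pt xs)) (hq : q ∈ poly (pt xs))
    (hr : r ∈ poly (pt xs)) (h0 : z ∈ poly (pt xs)) (hz : ∀ c, z c = 0) (a b c : ℝ)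
    (ha : 0 ≤ a) (hb : 0 ≤ b) (hc : 0 ≤ c) (hsum : a + b + c ≤ 1)
    (hv : ∀ i, v i = a * p i + b * q i + c * r i) : v ∈ poly (pt xs) := by
  have h1 : v = ∑ i : Fin 4, (![a, b, c, 1 - a - b - c] i) • (![p, q, r, z] i) := by
    ext i
    rw [hv i]
    simp [Fin.sum_univ_succ, hz i]
    ring
  rw [h1]
  apply (convex_convexHull ℝ _).sum_mem
  · intro i _
    fin_cases i
    · exact ha
    · exact hb
    · exact hc
    · show 0 ≤ 1 - a - b - c
      linarith
  · simp [Fin.sum_univ_succ]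
  · intro i _
    fin_cases i
    · exact hp
    · exact hq
    · exact hr
    · exact h0

lemma hrep (v : Sp 3) (h : ∀ k, lin (As k) v ≤ bs k) : v ∈ poly (pt xs) := by
  -- signs and absolute values
  obtain ⟨s0, hs0, e0⟩ : ∃ s : ℝ, (s = 1 ∨ s = -1) ∧ v 0 = s * |v 0| := by
    rcases le_total 0 (v 0) with h | h
    · exact ⟨1, Or.inl rfl, by rw [abs_of_nonneg h]; ring⟩
    · exact ⟨-1, Or.inr rfl, by rw [abs_of_nonpos h]; ring⟩
  obtain ⟨s1, hs1, e1⟩ : ∃ s : ℝ, (s = 1 ∨ s = -1) ∧ v 1 = s * |v 1| := by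
    rcases le_total 0 (v 1) with h | h
    · exact ⟨1, Or.inl rfl, by rw [abs_of_nonneg h]; ring⟩
    · exact ⟨-1, Or.inr rfl, by rw [abs_of_nonpos h]; ring⟩
  obtain ⟨s2, hs2, e2⟩ : ∃ s : ℝ, (s = 1 ∨ s = -1) ∧ v 2 = s * |v 2| := by
    rcases le_total 0 (v 2) with h | h
    · exact ⟨1, Or.inl rfl, by rw [abs_of_nonneg h]; ring⟩
    · exact ⟨-1, Or.inr rfl, by rw [abs_of_nonpos h]; ring⟩
  have hX := abs_nonneg (v 0)
  have hY := abs_nonneg (v 1)
  have hZ := abs_nonneg (v 2)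
  set X := |v 0|
  set Y := |v 1|
  set Z := |v 2|
  have hk : ∀ k : Fin 20, (As k 0 : ℝ) * v 0 + (As k 1 : ℝ) * v 1 + (As k 2 : ℝ) * v 2 ≤ bs k := by
    intro k
    have := h k
    rw [lin_apply, Fin.sum_univ_three] at this
    exact this
  rw [e0, e1, e2] at hk
  have g : X + Y + Z ≤ 3 ∧ X + 2 * Z ≤ 4 ∧ 2 * Y + Z ≤ 4 ∧ 2 * X + Y ≤ 4 := by
    have k0 := hk 0
    have k1 := hk 1
    have k2 := hk 2
    have k3 := hk 3
    have k4 := hk 4
    have k5 := hk 5
    have k6 := hk 6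
    have k7 := hk 7
    have k8 := hk 8
    have k9 := hk 9
    have k10 := hk 10
    have k11 := hk 11
    have k12 := hk 12
    have k13 := hk 13
    have k14 := hk 14
    have k15 := hk 15
    have k16 := hk 16
    have k17 := hk 17
    have k18 := hk 18
    have k19 := hk 19
    clear hk h e0 e1 e2
    simp [As, bs] at k0 k1 k2 k3 k4 k5 k6 k7 k8 k9 k10 k11 k12 k13 k14 k15 k16 k17 k18 k19
    rcases hs0 with rfl | rfl <;> rcases hs1 with rfl | rfl <;> rcases hs2 with rfl | rfl <;>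
      refine ⟨?_, ?_, ?_, ?_⟩ <;> linarith
  obtain ⟨g1, g2, g3, g4⟩ := g
  have P1 := (sgn_pts s1 s2 hs1 hs2).1
  have P2 := (sgn_pts s0 s1 hs0 hs1).2.1
  have P3 := (sgn_pts s2 s0 hs2 hs0).2.2
  have n1 : -s1 = 1 ∨ -s1 = -1 := by rcases hs1 with rfl | rfl <;> norm_num
  have n0 : -s0 = 1 ∨ -s0 = -1 := by rcases hs0 with rfl | rfl <;> norm_num
  have n2 : -s2 = 1 ∨ -s2 = -1 := by rcases hs2 with rfl | rfl <;> norm_num
  have Q1 := (sgn_pts (-s1) s2 n1 hs2).1
  have Q2 := (sgn_pts (-s0) s1 n0 hs1).2.1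
  have Q3 := (sgn_pts (-s2) s0 n2 hs0).2.2
  have M1 : !₂[(0 : ℝ), 0, 2 * s2] ∈ poly (pt xs) := by
    refine mem_half P1 Q1 ?_
    intro c; fin_cases c <;> simp; ring
  have M2 : !₂[(0 : ℝ), 2 * s1, 0] ∈ poly (pt xs) := by
    refine mem_half P2 Q2 ?_
    intro c; fin_cases c <;> simp; ring
  have M3 : !₂[2 * s0, (0 : ℝ), 0] ∈ poly (pt xs) := by
    refine mem_half P3 Q3 ?_
    intro c; fin_cases c <;> simp; ring
  have M0 : (0 : Sp 3) ∈ poly (pt xs) := by
    refine mem_half (sgn_pts 1 1 (Or.inl rfl) (Or.inl rfl)).1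
      (sgn_pts (-1) (-1) (Or.inr rfl) (Or.inr rfl)).1 ?_
    intro c; fin_cases c <;> simp
  by_cases c1 : 4 * Y + X ≤ 2 * Z
  · refine comb M1 P1 P3 M0 (fun c => rfl) ((Z - 2 * Y - X / 2) / 2) Y (X / 2) (by linarith) hY
      (by linarith) (by linarith) ?_
    intro i
    fin_cases i
    · simp; rw [e0]; ring
    · simp; rw [e1]; ring
    · simp; rw [e2]; ring
  by_cases c2 : 4 * Z + Y ≤ 2 * X
  · refine comb M3 P3 P2 M0 (fun c => rfl) ((X - 2 * Z - Y / 2) / 2) Z (Y / 2) (by linarith) hZ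
      (by linarith) (by linarith) ?_
    intro i
    fin_cases i
    · simp; rw [e0]; ring
    · simp; rw [e1]; ring
    · simp; rw [e2]; ring
  by_cases c3 : 4 * X + Z ≤ 2 * Y
  · refine comb M2 P2 P1 M0 (fun c => rfl) ((Y - 2 * X - Z / 2) / 2) X (Z / 2) (by linarith) hX
      (by linarith) (by linarith) ?_
    intro i
    fin_cases i
    · simp; rw [e0]; ring
    · simp; rw [e1]; ring
    · simp; rw [e2]; ring
  push Not at c1 c2 c3
  refine comb P1 P2 P3 M0 (fun c => rfl) ((4 * Z + Y - 2 * X) / 9) ((4 * Y + X - 2 * Z) / 9)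
    ((4 * X + Z - 2 * Y) / 9) (by linarith) (by linarith) (by linarith) (by linarith) ?_
  intro i
  fin_cases i
  · simp; rw [e0]; ring
  · simp; rw [e1]; ring
  · simp; rw [e2]; ring

/-- the rotations of the tetrahedron preserve the vertex set of the icosahedron -/
lemma rot_perm {A : Sp 3 ≃ₗᵢ[ℝ] Sp 3} (hA : A ∈ rotGroup tetrahedron) :
    ∀ j, ∃ j', A (pt xs j) = pt xs j' := by
  obtain ⟨hA1, hA2⟩ := hA
  obtain ⟨σ, hσ⟩ := tet_perm hA1
  have hcol : ∀ k r : Fin 3, A (EuclideanSpace.single k 1) r =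
      (mat (σ 0) (σ 1) (σ 2) (σ 3) r k : ℝ) := by
    have hpar : ∀ a b : Fin 4, ∀ r : Fin 3, (tv a r + tv b r) / 2 * 2 = tv a r + tv b r := by
      decide +kernel
    have hsum : ∀ k r : Fin 3, 2 * A (EuclideanSpace.single k 1) r =
        pt tv (σ 0) r + pt tv (![σ 1, σ 2, σ 3] k) r := by
      intro k r
      have h1 : (2 : ℝ) • EuclideanSpace.single k (1 : ℝ) =
          pt tv 0 + pt tv (![1, 2, 3] k) := by
        ext c
        fin_cases k <;> fin_cases c <;> simp [pt, tv] <;> norm_num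
      have h2 : (2 : ℝ) • A (EuclideanSpace.single k 1) =
          A (pt tv 0) + A (pt tv (![1, 2, 3] k)) := by
        rw [← map_smul, h1, map_add]
      rw [hσ, hσ] at h2
      have h3 := congrArg (fun w : Sp 3 => w r) h2
      simp at h3
      rw [h3]
      fin_cases k <;> rfl
    intro k r
    have h4 := hsum k r
    have h5 : ((mat (σ 0) (σ 1) (σ 2) (σ 3) r k : ℤ) : ℝ) * 2 =
        pt tv (σ 0) r + pt tv (![σ 1, σ 2, σ 3] k) r := by
      have := hpar (σ 0) (![σ 1, σ 2, σ 3] k) r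
      simp only [pt]
      exact_mod_cast this
    linarith
  have hdet : (mat (σ 0) (σ 1) (σ 2) (σ 3)).det = 1 := by
    have h1 : LinearMap.toMatrix (EuclideanSpace.basisFun (Fin 3) ℝ).toBasis
        (EuclideanSpace.basisFun (Fin 3) ℝ).toBasis
        (A.toLinearEquiv : Sp 3 →ₗ[ℝ] Sp 3) =
        (mat (σ 0) (σ 1) (σ 2) (σ 3)).map (Int.castRingHom ℝ) := by
      ext r k
      rw [LinearMap.toMatrix_apply]
      simp
      exact hcol k r
    rw [← LinearMap.det_toMatrix (EuclideanSpace.basisFun (Fin 3) ℝ).toBasis, h1,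
      ← RingHom.mapMatrix_apply, ← RingHom.map_det] at hA2
    have h2 : (((mat (σ 0) (σ 1) (σ 2) (σ 3)).det : ℤ) : ℝ) = ((1 : ℤ) : ℝ) := by
      rw [Int.cast_one]
      exact hA2
    exact_mod_cast h2
  have hinj : σ 0 ≠ σ 1 ∧ σ 0 ≠ σ 2 ∧ σ 0 ≠ σ 3 ∧ σ 1 ≠ σ 2 ∧ σ 1 ≠ σ 3 ∧ σ 2 ≠ σ 3 := by
    have hne : ∀ i j : Fin 4, i ≠ j → σ i ≠ σ j := by
      intro i j hij h
      have h1 : A (pt tv i) = A (pt tv j) := by rw [hσ, hσ, h]
      have h2 := A.injective h1
      have h3 : ∀ i j : Fin 4, i ≠ j → ∃ c, tv i c ≠ tv j c := by decide +kernel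
      obtain ⟨c, hc⟩ := h3 i j hij
      apply hc
      have h6 := congrArg (fun w : Sp 3 => w c) h2
      simp only [pt] at h6
      exact_mod_cast h6
    exact ⟨hne _ _ (by decide), hne _ _ (by decide), hne _ _ (by decide), hne _ _ (by decide),
      hne _ _ (by decide), hne _ _ (by decide)⟩
  have key : ∀ a b c d : Fin 4, (a ≠ b ∧ a ≠ c ∧ a ≠ d ∧ b ≠ c ∧ b ≠ d ∧ c ≠ d) →
      (mat a b c d).det = 1 → ∀ j : Fin 12, ∃ j' : Fin 12, ∀ r : Fin 3,
      ∑ k, mat a b c d r k * xs j k = xs j' r := by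
    simp only [Matrix.det_fin_three]
    decide +kernel
  intro j
  obtain ⟨j', hj'⟩ := key (σ 0) (σ 1) (σ 2) (σ 3) hinj hdet j
  refine ⟨j', ?_⟩
  have hdec : pt xs j = ∑ k : Fin 3, (xs j k : ℝ) • EuclideanSpace.single k (1 : ℝ) := by
    ext c
    simp only [pt, Fin.sum_univ_three]
    fin_cases c <;> simp
  rw [hdec, map_sum]
  ext r
  have h7 : ((∑ k, mat (σ 0) (σ 1) (σ 2) (σ 3) r k * xs j k : ℤ) : ℝ) = (xs j' r : ℝ) := by
    rw [hj' r]
  rw [show pt xs j' r = (xs j' r : ℝ) from rfl, ← h7]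
  simp only [map_smul, Fin.sum_univ_three]
  simp only [PiLp.add_apply, PiLp.smul_apply, smul_eq_mul, hcol]
  push_cast
  ring

lemma rot_pres {A : Sp 3 ≃ₗᵢ[ℝ] Sp 3} (hA : A ∈ rotGroup tetrahedron) :
    A '' poly (pt xs) = poly (pt xs) := by
  have himg : A '' Set.range (pt xs) = Set.range (pt xs) := by
    apply Set.eq_of_subset_of_ncard_le
    · rintro _ ⟨_, ⟨j, rfl⟩, rfl⟩
      obtain ⟨j', hj'⟩ := rot_perm hA j
      exact ⟨j', hj'.symm⟩
    · rw [Set.ncard_image_of_injective _ A.injective]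
    · exact Set.finite_range _
  unfold poly
  have h1 := LinearMap.image_convexHull (A.toLinearEquiv : Sp 3 →ₗ[ℝ] Sp 3)
    (Set.range (pt xs))
  have h2 : (A.toLinearEquiv : Sp 3 →ₗ[ℝ] Sp 3) '' (Set.range (pt xs)) = Set.range (pt xs) := himg
  rw [h2] at h1
  exact h1

lemma vertices_eq : vertices (poly (pt xs)) = Set.range (pt xs) := by
  apply Set.Subset.antisymm
  · intro v hv
    obtain ⟨j, hj⟩ := nonempty_ind (pt xs) hv ⟨_, rfl⟩
    exact ⟨j, Set.mem_singleton_iff.1 hj⟩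
  · rintro _ ⟨j, rfl⟩
    exact vert j

lemma facets_eq : facets (poly (pt xs)) = Set.range fun k => hull (pt xs) (Is k) := by
  apply Set.Subset.antisymm
  · intro F hF
    obtain ⟨k, hk⟩ := cert.facet_eq hrep 0 hF
    exact ⟨k, hk.symm⟩
  · rintro _ ⟨k, rfl⟩
    exact cert.mem_facets k

lemma interior_ne : (interior (poly (pt xs))).Nonempty := by
  refine ⟨0, ?_⟩
  rw [mem_interior]
  refine ⟨{v : Sp 3 | ∀ k, lin (As k) v < bs k}, ?_, ?_, ?_⟩
  · intro v hv
    exact hrep v fun k => (hv k).le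
  · have : {v : Sp 3 | ∀ k, lin (As k) v < bs k} = ⋂ k, {v : Sp 3 | lin (As k) v < bs k} := by
      ext v
      simp
    rw [this]
    apply isOpen_iInter_of_finite
    intro k
    exact isOpen_lt (lin (As k)).continuous continuous_const
  · intro k
    rw [map_zero]
    have : ∀ k, 0 < bs k := by decide +kernel
    exact_mod_cast this k

theorem mem_T : (12, 20) ∈ fvecs (rotGroup tetrahedron) := by
  refine ⟨poly (pt xs), polytope_poly _, interior_ne, fun A hA => rot_pres hA, ?_, ?_⟩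
  · rw [vertices_eq, ← Set.image_univ, Set.ncard_image_of_injective _ pt_inj]
    simp
  · have hinj : Function.Injective fun k => hull (pt xs) (Is k) := by
      intro a b hab
      exact Is_inj (cert.hull_inj hab)
    rw [facets_eq, ← Set.image_univ, Set.ncard_image_of_injective _ hinj]
    simp


/-! ### The full group -/

/-- signed coordinate permutation -/
noncomputable def act (e : Equiv.Perm (Fin 3)) (s : Fin 3 → Bool) : Sp 3 ≃ₗᵢ[ℝ] Sp 3 :=
  (LinearIsometryEquiv.piLpCongrLeft 2 ℝ ℝ e).trans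
    (LinearIsometryEquiv.piLpCongrRight 2 fun i =>
      if s i then LinearIsometryEquiv.neg ℝ else LinearIsometryEquiv.refl ℝ ℝ)

/-- the sign attached to a boolean -/
def sg (b : Bool) : ℝ := if b then -1 else 1

lemma act_apply (e : Equiv.Perm (Fin 3)) (s : Fin 3 → Bool) (v : Sp 3) (i : Fin 3) :
    act e s v i = sg (s i) * v (e.symm i) := by
  simp only [act, LinearIsometryEquiv.trans_apply, LinearIsometryEquiv.piLpCongrRight_apply, sg]
  cases h : s i <;> simp [LinearIsometryEquiv.piLpCongrLeft_apply, Equiv.piCongrLeft']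

/-- an even number of sign changes -/
def Even3 (s : Fin 3 → Bool) : Prop := xor (xor (s 0) (s 1)) (s 2) = false

instance (s : Fin 3 → Bool) : Decidable (Even3 s) := by unfold Even3; infer_instance

lemma act_pres {e : Equiv.Perm (Fin 3)} {s : Fin 3 → Bool} (hs : Even3 s) :
    act e s ∈ fullGroup tetrahedron := by
  have hkey : ∀ (e : Equiv.Perm (Fin 3)) (s : Fin 3 → Bool), Even3 s → ∀ j : Fin 4,
      ∃ j' : Fin 4, ∀ i : Fin 3, (if s i then -1 else 1) * tv j (e.symm i) = tv j' i := by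
    decide +kernel
  have himg : act e s '' Set.range (pt tv) = Set.range (pt tv) := by
    apply Set.eq_of_subset_of_ncard_le
    · rintro _ ⟨_, ⟨j, rfl⟩, rfl⟩
      obtain ⟨j', hj'⟩ := hkey e s hs j
      refine ⟨j', ?_⟩
      ext i
      rw [act_apply]
      have h1 := hj' i
      simp only [pt, sg]
      rw [← h1]
      cases s i <;> simp
    · rw [Set.ncard_image_of_injective _ (act e s).injective]
    · exact Set.finite_range _
  show act e s '' tetrahedron = tetrahedron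
  rw [tet_eq]
  unfold poly
  have h1 := LinearMap.image_convexHull ((act e s).toLinearEquiv : Sp 3 →ₗ[ℝ] Sp 3)
    (Set.range (pt tv))
  have h2 : ((act e s).toLinearEquiv : Sp 3 →ₗ[ℝ] Sp 3) '' (Set.range (pt tv)) =
    Set.range (pt tv) := himg
  rw [h2] at h1
  exact h1

/-- the closed fundamental chamber -/
def Chamber (v : Sp 3) : Prop := v 1 ≤ v 0 ∧ v 2 ≤ v 1 ∧ -v 2 ≤ v 1

lemma sg_mul_abs (x : ℝ) : ∃ b : Bool, sg b * x = |x| := by
  rcases le_total 0 x with h | h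
  · exact ⟨false, by simp [sg, abs_of_nonneg h]⟩
  · exact ⟨true, by simp [sg, abs_of_nonpos h]⟩

lemma exists_chamber (v : Sp 3) : ∃ e s, Even3 s ∧ Chamber (act e s v) := by
  set σ := Tuple.sort (fun i => -|v i|) with hσ
  have hmono := Tuple.monotone_sort (fun i => -|v i|)
  have h01 : |v (σ 1)| ≤ |v (σ 0)| := by
    have := hmono (show (0 : Fin 3) ≤ 1 by decide)
    simp only [Function.comp_apply] at this
    rw [← hσ] at this
    linarith
  have h12 : |v (σ 2)| ≤ |v (σ 1)| := by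
    have := hmono (show (1 : Fin 3) ≤ 2 by decide)
    simp only [Function.comp_apply] at this
    rw [← hσ] at this
    linarith
  obtain ⟨b0, hb0⟩ := sg_mul_abs (v (σ 0))
  obtain ⟨b1, hb1⟩ := sg_mul_abs (v (σ 1))
  refine ⟨σ.symm, ![b0, b1, xor b0 b1], ?_, ?_, ?_, ?_⟩
  · show xor (xor b0 b1) (xor b0 b1) = false
    simp
  · rw [act_apply, act_apply]
    show sg b1 * v (σ 1) ≤ sg b0 * v (σ 0)
    rw [hb0, hb1]
    exact h01
  · rw [act_apply, act_apply]
    show sg (xor b0 b1) * v (σ 2) ≤ sg b1 * v (σ 1)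
    rw [hb1]
    refine le_trans ?_ h12
    cases (xor b0 b1)
    · simp [sg]; exact le_abs_self _
    · simp [sg]; exact neg_le_abs _
  · rw [act_apply, act_apply]
    show -(sg (xor b0 b1) * v (σ 2)) ≤ sg b1 * v (σ 1)
    rw [hb1]
    refine le_trans ?_ h12
    cases (xor b0 b1)
    · simp [sg]; exact neg_le_abs _
    · simp [sg]; exact le_abs_self _

/-- `v` lies on a 2-fold or 3-fold axis -/
def Special (v : Sp 3) : Prop :=
  (|v 0| = |v 1| ∧ |v 1| = |v 2|) ∨ (v 0 = 0 ∧ v 1 = 0) ∨ (v 1 = 0 ∧ v 2 = 0) ∨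
    (v 0 = 0 ∧ v 2 = 0)

lemma perm3 (e : Equiv.Perm (Fin 3)) :
    (e 0 = 0 ∧ e 1 = 1 ∧ e 2 = 2) ∨ (e 0 = 0 ∧ e 1 = 2 ∧ e 2 = 1) ∨
    (e 0 = 1 ∧ e 1 = 0 ∧ e 2 = 2) ∨ (e 0 = 1 ∧ e 1 = 2 ∧ e 2 = 0) ∨
    (e 0 = 2 ∧ e 1 = 0 ∧ e 2 = 1) ∨ (e 0 = 2 ∧ e 1 = 1 ∧ e 2 = 0) := by
  revert e; decide +kernel

lemma sg_cases (b : Bool) : sg b = 1 ∨ sg b = -1 := by
  cases b
  · left; simp [sg]
  · right; simp [sg]

lemma abs_sg (b : Bool) (x : ℝ) : |sg b * x| = |x| := by
  rcases sg_cases b with h | h <;> rw [h] <;> simp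

lemma sg_eq_zero (b : Bool) (x : ℝ) : sg b * x = 0 ↔ x = 0 := by
  rcases sg_cases b with h | h <;> rw [h] <;> simp

lemma special_of_act {e : Equiv.Perm (Fin 3)} {s : Fin 3 → Bool} {v : Sp 3}
    (h : Special (act e s v)) : Special v := by
  unfold Special at h
  simp only [act_apply, abs_sg, sg_eq_zero] at h
  rcases perm3 e.symm with ⟨h0, h1, h2⟩ | ⟨h0, h1, h2⟩ | ⟨h0, h1, h2⟩ | ⟨h0, h1, h2⟩ |
    ⟨h0, h1, h2⟩ | ⟨h0, h1, h2⟩ <;> rw [h0, h1, h2] at h <;> unfold Special <;>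
    rcases h with ⟨h, h'⟩ | ⟨h, h'⟩ | ⟨h, h'⟩ | ⟨h, h'⟩ <;>
    first
      | exact Or.inl ⟨by linarith, by linarith⟩
      | exact Or.inr (Or.inl ⟨by assumption, by assumption⟩)
      | exact Or.inr (Or.inr (Or.inl ⟨by assumption, by assumption⟩))
      | exact Or.inr (Or.inr (Or.inr ⟨by assumption, by assumption⟩))

/-- inner product in coordinates -/
def ip (n v : Sp 3) : ℝ := n 0 * v 0 + n 1 * v 1 + n 2 * v 2

lemma ip_act (e : Equiv.Perm (Fin 3)) (s : Fin 3 → Bool) (n v : Sp 3) :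
    ip (act e s n) (act e s v) = ip n v := by
  unfold ip
  simp only [act_apply]
  have hsq : ∀ b : Bool, sg b * sg b = 1 := by
    intro b
    rcases sg_cases b with h | h <;> rw [h] <;> norm_num
  have h1 : ∀ (b : Bool) (x y : ℝ), sg b * x * (sg b * y) = x * y := by
    intro b x y
    have : sg b * x * (sg b * y) = (sg b * sg b) * (x * y) := by ring
    rw [this, hsq, one_mul]
  rw [h1, h1, h1]
  rcases perm3 e.symm with ⟨h0, h1, h2⟩ | ⟨h0, h1, h2⟩ | ⟨h0, h1, h2⟩ | ⟨h0, h1, h2⟩ |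
    ⟨h0, h1, h2⟩ | ⟨h0, h1, h2⟩ <;> rw [h0, h1, h2] <;> ring

/-- what we use of the orbit of a chamber point -/
def Below (v w : Sp 3) : Prop :=
  w 0 ≤ v 0 ∧ w 0 + w 1 + w 2 ≤ v 0 + v 1 + v 2 ∧ w 0 + w 1 - w 2 ≤ v 0 + v 1 - v 2 ∧
    w 0 ^ 2 + w 1 ^ 2 + w 2 ^ 2 = v 0 ^ 2 + v 1 ^ 2 + v 2 ^ 2

lemma ext3 {v w : Sp 3} (h0 : v 0 = w 0) (h1 : v 1 = w 1) (h2 : v 2 = w 2) : v = w := by
  ext i
  fin_cases i
  · exact h0
  · exact h1
  · exact h2

/-- a functional not on an axis is maximal in at most two points of an orbit -/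
lemma two_points {n v : Sp 3} (hn : Chamber n) (hns : ¬ Special n) :
    ∃ r : Sp 3, ∀ w, Below v w → ip n v ≤ ip n w → w = v ∨ w = r := by
  obtain ⟨c1, c2, c3⟩ := hn
  unfold Special at hns
  push Not at hns
  obtain ⟨hs1, hs2, hs3, hs4⟩ := hns
  have hn1 : 0 ≤ n 1 := by linarith
  have hn0 : 0 ≤ n 0 := by linarith
  -- decomposition of the functional
  have hdec : ∀ w : Sp 3, ip n w = (n 0 - n 1) * w 0 + (n 1 + n 2) / 2 * (w 0 + w 1 + w 2) +
      (n 1 - n 2) / 2 * (w 0 + w 1 - w 2) := by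
    intro w; unfold ip; ring
  have hterm : ∀ w, Below v w → ip n v ≤ ip n w →
      (n 0 - n 1) * (v 0 - w 0) = 0 ∧ (n 1 + n 2) * (v 0 + v 1 + v 2 - (w 0 + w 1 + w 2)) = 0 ∧
      (n 1 - n 2) * (v 0 + v 1 - v 2 - (w 0 + w 1 - w 2)) = 0 := by
    rintro w ⟨b1, b2, b3, -⟩ hle
    rw [hdec, hdec] at hle
    have t1 : 0 ≤ (n 0 - n 1) * (v 0 - w 0) := mul_nonneg (by linarith) (by linarith)
    have t2 : 0 ≤ (n 1 + n 2) * (v 0 + v 1 + v 2 - (w 0 + w 1 + w 2)) :=
      mul_nonneg (by linarith) (by linarith)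
    have t3 : 0 ≤ (n 1 - n 2) * (v 0 + v 1 - v 2 - (w 0 + w 1 - w 2)) :=
      mul_nonneg (by linarith) (by linarith)
    refine ⟨by nlinarith, by nlinarith, by nlinarith⟩
  by_cases hp : n 0 = n 1
  · -- then `n 1 + n 2 > 0` and `n 1 - n 2 > 0`
    have hq : n 1 + n 2 ≠ 0 := by
      intro h
      apply hs1
      · rw [hp]
      · rw [show n 2 = -n 1 by linarith, abs_neg]
    have hr : n 1 - n 2 ≠ 0 := by
      intro h
      apply hs1
      · rw [hp]
      · rw [show n 2 = n 1 by linarith]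
    refine ⟨!₂[v 1, v 0, v 2], fun w hw hle => ?_⟩
    obtain ⟨-, t2, t3⟩ := hterm w hw hle
    have t2' := (mul_eq_zero.1 t2).resolve_left hq
    have t3' := (mul_eq_zero.1 t3).resolve_left hr
    have e2 : w 2 = v 2 := by linarith
    have e01 : w 1 = v 0 + v 1 - w 0 := by linarith
    have hnorm := hw.2.2.2
    rw [e2, e01] at hnorm
    have hprod : (w 0 - v 0) * (w 0 - v 1) = 0 := by linarith [hnorm, sq_nonneg (w 0)]
    rcases mul_eq_zero.1 hprod with h | h
    · left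
      exact ext3 (by linarith) (by linarith) e2
    · right
      exact ext3 (show w 0 = v 1 by linarith) (show w 1 = v 0 by linarith) e2
  · have hp' : n 0 - n 1 ≠ 0 := fun h => hp (by linarith)
    by_cases hq : n 1 + n 2 = 0
    · have hr : n 1 - n 2 ≠ 0 := by
        intro h
        exact hs3 (by linarith) (by linarith)
      refine ⟨!₂[v 0, -v 2, -v 1], fun w hw hle => ?_⟩
      obtain ⟨t1, -, t3⟩ := hterm w hw hle
      have t1' := (mul_eq_zero.1 t1).resolve_left hp'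
      have t3' := (mul_eq_zero.1 t3).resolve_left hr
      have e0 : w 0 = v 0 := by linarith
      have e12 : w 1 = v 1 - v 2 + w 2 := by linarith
      have hnorm := hw.2.2.2
      rw [e0, e12] at hnorm
      have hprod : (w 2 - v 2) * (w 2 + v 1) = 0 := by linarith [hnorm, sq_nonneg (w 0)]
      rcases mul_eq_zero.1 hprod with h | h
      · left
        exact ext3 e0 (by linarith) (by linarith)
      · right
        exact ext3 e0 (show w 1 = -v 2 by linarith) (show w 2 = -v 1 by linarith)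
    · refine ⟨!₂[v 0, v 2, v 1], fun w hw hle => ?_⟩
      obtain ⟨t1, t2, -⟩ := hterm w hw hle
      have t1' := (mul_eq_zero.1 t1).resolve_left hp'
      have t2' := (mul_eq_zero.1 t2).resolve_left hq
      have e0 : w 0 = v 0 := by linarith
      have e12 : w 1 = v 1 + v 2 - w 2 := by linarith
      have hnorm := hw.2.2.2
      rw [e0, e12] at hnorm
      have hprod : (w 2 - v 2) * (w 2 - v 1) = 0 := by linarith [hnorm, sq_nonneg (w 0)]
      rcases mul_eq_zero.1 hprod with h | h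
      · left
        exact ext3 e0 (by linarith) (by linarith)
      · right
        exact ext3 e0 (show w 1 = v 2 by linarith) (show w 2 = v 1 by linarith)

/-- sign patterns with an even number of minus signs -/
def sp : Fin 4 → Fin 3 → Bool :=
  ![![false, false, false], ![false, true, true], ![true, false, true], ![true, true, false]]

/-- cyclic shift -/
def cyc (k : Fin 3) : Equiv.Perm (Fin 3) := (Equiv.addRight k).symm

lemma cyc_symm (k i : Fin 3) : (cyc k).symm i = i + k := rfl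

lemma sp_even (m : Fin 4) : Even3 (sp m) := by
  revert m; decide

/-- the element of the rotation group indexed by `(k, m)` -/
noncomputable def rot (km : Fin 3 × Fin 4) (v : Sp 3) : Sp 3 := act (cyc km.1) (sp km.2) v

lemma rot_apply (km : Fin 3 × Fin 4) (v : Sp 3) (i : Fin 3) :
    rot km v i = sg (sp km.2 i) * v (i + km.1) := by
  rw [rot, act_apply, cyc_symm]

lemma rot_inj {v : Sp 3} (hv : ¬ Special v) :
    Function.Injective fun km : Fin 3 × Fin 4 => rot km v := by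
  rintro ⟨k, m⟩ ⟨k', m'⟩ h
  have hi : ∀ i, sg (sp m i) * v (i + k) = sg (sp m' i) * v (i + k') := by
    intro i
    have := congrArg (fun w : Sp 3 => w i) h
    simp only [rot_apply] at this
    exact this
  have hk : k = k' := by
    by_contra hne
    have habs : ∀ i, |v (i + k)| = |v (i + k')| := by
      intro i
      rw [← abs_sg (sp m i), hi i, abs_sg]
    apply hv
    left
    have h0 := habs 0
    have h1 := habs 1
    have h2 := habs 2
    fin_cases k <;> fin_cases k' <;> simp at hne h0 h1 h2 <;>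
      first
        | exact ⟨h0, h1⟩
        | exact ⟨h0.symm, h1.symm⟩
        | exact ⟨h1, h2⟩
        | exact ⟨h1.symm, h2.symm⟩
        | exact ⟨h2, h0⟩
        | exact ⟨h2.symm, h0.symm⟩
  subst hk
  have hm : m = m' := by
    by_contra hne
    have hdiff : ∀ i, sp m i ≠ sp m' i → v (i + k) = 0 := by
      intro i hi'
      have h1 := hi i
      have h2 : sg (sp m' i) = - sg (sp m i) := by
        revert hi'
        cases sp m i <;> cases sp m' i <;> simp [sg]
      rw [h2] at h1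
      have h3 : sg (sp m i) * v (i + k) = 0 := by linarith
      exact (sg_eq_zero _ _).1 h3
    have htwo : ∀ m m' : Fin 4, m ≠ m' → ∀ k : Fin 3,
        (sp m (0 - k) ≠ sp m' (0 - k) ∧ sp m (1 - k) ≠ sp m' (1 - k)) ∨
        (sp m (1 - k) ≠ sp m' (1 - k) ∧ sp m (2 - k) ≠ sp m' (2 - k)) ∨
        (sp m (0 - k) ≠ sp m' (0 - k) ∧ sp m (2 - k) ≠ sp m' (2 - k)) := by decide
    apply hv
    right
    rcases htwo m m' hne k with ⟨a, b⟩ | ⟨a, b⟩ | ⟨a, b⟩
    · left
      have h1 := hdiff _ a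
      have h2 := hdiff _ b
      rw [sub_add_cancel] at h1 h2
      exact ⟨h1, h2⟩
    · right; left
      have h1 := hdiff _ a
      have h2 := hdiff _ b
      rw [sub_add_cancel] at h1 h2
      exact ⟨h1, h2⟩
    · right; right
      have h1 := hdiff _ a
      have h2 := hdiff _ b
      rw [sub_add_cancel] at h1 h2
      exact ⟨h1, h2⟩
  rw [hm]

lemma below_rot {v : Sp 3} (hv : Chamber v) (km : Fin 3 × Fin 4) : Below v (rot km v) := by
  obtain ⟨h1, h2, h3⟩ := hv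
  obtain ⟨k, m⟩ := km
  unfold Below
  simp only [rot_apply]
  fin_cases k <;> fin_cases m <;> refine ⟨?_, ?_, ?_, ?_⟩ <;> simp [sp, sg] <;>
    linarith

/-- vertex sets closed under the full group, with 12 elements and a non-special element -/
lemma orbit_eq {V : Set (Sp 3)} (hV : V.ncard = 12) (hcl : ∀ km, ∀ v ∈ V, rot km v ∈ V)
    {v : Sp 3} (hv : v ∈ V) (hvs : ¬ Special v) : ∀ w ∈ V, ∃ km, w = rot km v := by
  have hfin : V.Finite := Set.finite_of_ncard_ne_zero (by omega)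
  have h1 : Set.range (fun km : Fin 3 × Fin 4 => rot km v) = V := by
    apply Set.eq_of_subset_of_ncard_le
    · rintro _ ⟨km, rfl⟩
      exact hcl km v hv
    · rw [hV, ← Set.image_univ, Set.ncard_image_of_injective _ (rot_inj hvs), Set.ncard_univ]
      simp
    · exact hfin
  intro w hw
  rw [← h1] at hw
  obtain ⟨km, hkm⟩ := hw
  exact ⟨km, hkm.symm⟩

/-- sign pattern -/
noncomputable def pat (v : Sp 3) (i : Fin 3) : SignType := SignType.sign (v i)

/-- the patterns of special nonzero vectors -/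
def pats : Finset (Fin 3 → SignType) :=
  Finset.univ.filter fun u => (u 0 ≠ 0 ∧ u 1 ≠ 0 ∧ u 2 ≠ 0) ∨ (u 0 ≠ 0 ∧ u 1 = 0 ∧ u 2 = 0) ∨
    (u 0 = 0 ∧ u 1 ≠ 0 ∧ u 2 = 0) ∨ (u 0 = 0 ∧ u 1 = 0 ∧ u 2 ≠ 0)

lemma pats_card : pats.card = 14 := by decide +kernel

lemma sign_eq (x : ℝ) : x = |x| * (SignType.sign x : ℝ) := (abs_mul_sign x).symm

lemma special_pat {v : Sp 3} (hv : Special v) (h0 : v ≠ 0) :
    pat v ∈ pats ∧ ∃ t : ℝ, 0 < t ∧ ∀ i, v i = t * (pat v i : ℝ) := by
  unfold pats pat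
  simp only [Finset.mem_filter, Finset.mem_univ, true_and, ne_eq, sign_eq_zero_iff]
  rcases hv with ⟨h1, h2⟩ | ⟨h1, h2⟩ | ⟨h1, h2⟩ | ⟨h1, h2⟩
  · have hne : v 0 ≠ 0 := by
      intro hz
      apply h0
      rw [hz, abs_zero] at h1
      rw [← h1] at h2
      exact ext3 hz (abs_eq_zero.1 h1.symm) (abs_eq_zero.1 h2.symm)
    have hne1 : v 1 ≠ 0 := by
      intro hz
      rw [hz, abs_zero] at h1
      exact hne (abs_eq_zero.1 h1)
    have hne2 : v 2 ≠ 0 := by
      intro hz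
      rw [hz, abs_zero] at h2
      exact hne1 (abs_eq_zero.1 h2)
    refine ⟨Or.inl ⟨hne, hne1, hne2⟩, |v 0|, abs_pos.2 hne, fun i => ?_⟩
    fin_cases i
    · exact sign_eq _
    · show v 1 = _
      rw [h1]; exact sign_eq _
    · show v 2 = _
      rw [h1, h2]; exact sign_eq _
  · have hne : v 2 ≠ 0 := fun hz => h0 (ext3 h1 h2 hz)
    refine ⟨Or.inr (Or.inr (Or.inr ⟨h1, h2, hne⟩)), |v 2|, abs_pos.2 hne, fun i => ?_⟩
    fin_cases i
    · show v 0 = _ * ((SignType.sign (v 0) : SignType) : ℝ)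
      rw [h1]; simp
    · show v 1 = _ * ((SignType.sign (v 1) : SignType) : ℝ)
      rw [h2]; simp
    · exact sign_eq _
  · have hne : v 0 ≠ 0 := fun hz => h0 (ext3 hz h1 h2)
    refine ⟨Or.inr (Or.inl ⟨hne, h1, h2⟩), |v 0|, abs_pos.2 hne, fun i => ?_⟩
    fin_cases i
    · exact sign_eq _
    · show v 1 = _ * ((SignType.sign (v 1) : SignType) : ℝ)
      rw [h1]; simp
    · show v 2 = _ * ((SignType.sign (v 2) : SignType) : ℝ)
      rw [h2]; simp
  · have hne : v 1 ≠ 0 := fun hz => h0 (ext3 h1 hz h2)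
    refine ⟨Or.inr (Or.inr (Or.inl ⟨h1, hne, h2⟩)), |v 1|, abs_pos.2 hne, fun i => ?_⟩
    fin_cases i
    · show v 0 = _ * ((SignType.sign (v 0) : SignType) : ℝ)
      rw [h1]; simp
    · exact sign_eq _
    · show v 2 = _ * ((SignType.sign (v 2) : SignType) : ℝ)
      rw [h2]; simp

/-- action on sign patterns -/
def actp (km : Fin 3 × Fin 4) (u : Fin 3 → SignType) : Fin 3 → SignType :=
  fun i => (if sp km.2 i then -1 else 1) * u (i + km.1)

lemma pat_rot (km : Fin 3 × Fin 4) (v : Sp 3) : pat (rot km v) = actp km (pat v) := by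
  ext i
  unfold pat actp
  rw [rot_apply, sign_mul]
  cases sp km.2 i <;> simp [sg]

/-- A polytope invariant under the full group with 12 vertices has a non-special vertex. -/
lemma exists_nonspecial {P : Set (Sp 3)} (hP : IsPolytope P)
    (hinv : ∀ A ∈ fullGroup tetrahedron, A '' P = P) (hV : (vertices P).ncard = 12) :
    ∃ v ∈ vertices P, ¬ Special v := by
  by_contra hcon
  push Not at hcon
  have hfin : (vertices P).Finite := (polytope_vertices hP).1
  have hcl : ∀ km, ∀ v ∈ vertices P, rot km v ∈ vertices P := by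
    intro km v hv
    exact vertex_image _ (hinv _ (act_pres (sp_even km.2))) hv
  have hPc : Convex ℝ P := by
    obtain ⟨S, rfl⟩ := hP
    exact convex_convexHull ℝ _
  have hsum : ∀ v : Sp 3, rot (0, 0) v + rot (0, 1) v + rot (0, 2) v + rot (0, 3) v = 0 := by
    intro v
    ext i
    simp only [PiLp.add_apply, rot_apply]
    fin_cases i <;> simp [sp, sg]
  have hcov : ∀ v ∈ vertices P, (0 : Sp 3) ∈ P := by
    intro v hv
    have h1 : (0 : Sp 3) = ∑ m : Fin 4, (1 / 4 : ℝ) • rot (0, m) v := by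
      rw [← Finset.smul_sum]
      have : ∑ m : Fin 4, rot (0, m) v = 0 := by
        rw [Fin.sum_univ_four]
        exact hsum v
      rw [this, smul_zero]
    rw [h1]
    apply hPc.sum_mem
    · intro m _; norm_num
    · simp
    · intro m _
      exact mem_of_vertex (hcl _ v hv)
  -- the origin is not a vertex
  have h0 : ∀ v ∈ vertices P, v ≠ 0 := by
    rintro v hv rfl
    obtain ⟨l, hl⟩ := vertex_functional hv
    -- another vertex
    obtain ⟨w, hw, hw0⟩ : ∃ w ∈ vertices P, w ≠ 0 := by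
      by_contra hno
      push Not at hno
      have : vertices P ⊆ {0} := fun w hw => hno w hw
      have := Set.ncard_le_ncard this
      rw [hV, Set.ncard_singleton] at this
      omega
    have hlt : ∀ m, l (rot (0, m) w) < 0 := by
      intro m
      have h1 := hl (rot (0, m) w) (mem_of_vertex (hcl _ w hw)) (by
        intro hz
        apply hw0
        have h2 : act (cyc 0) (sp m) w = act (cyc 0) (sp m) 0 := by
          rw [map_zero]; exact hz
        exact (act (cyc 0) (sp m)).injective h2)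
      rwa [map_zero] at h1
    have h2 := congrArg l (hsum w)
    rw [map_add, map_add, map_add, map_zero] at h2
    linarith [hlt 0, hlt 1, hlt 2, hlt 3]
  have hpat : ∀ v ∈ vertices P, pat v ∈ pats ∧ ∃ t : ℝ, 0 < t ∧ ∀ i, v i = t * (pat v i : ℝ) :=
    fun v hv => special_pat (hcon v hv) (h0 v hv)
  -- the pattern determines the vertex
  have hlt : ∀ v ∈ vertices P, ∀ w ∈ vertices P, ∀ r : ℝ, 0 < r → r < 1 → v ≠ r • w := by
    intro v hv w hw r hr hr1 heq
    obtain ⟨l, hl⟩ := vertex_functional hv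
    have hv0 := h0 v hv
    have h1 : l 0 < l v := hl 0 (hcov v hv) (Ne.symm hv0)
    have hwv : w ≠ v := by
      rintro rfl
      apply hv0
      have h2 : (1 - r) • w = 0 := by
        rw [sub_smul, one_smul, ← heq, sub_self]
      rcases smul_eq_zero.1 h2 with h3 | h3
      · linarith
      · exact h3
    have h2 : l w < l v := hl w (mem_of_vertex hw) hwv
    have h3 : l v = r * l w := by rw [heq, map_smul, smul_eq_mul]
    rw [map_zero] at h1
    have h4 : 0 < l w := by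
      rw [h3] at h1
      exact (mul_pos_iff_of_pos_left hr).1 h1
    have h5 : r * l w < 1 * l w := mul_lt_mul_of_pos_right hr1 h4
    linarith
  have hinj : Set.InjOn pat (vertices P) := by
    intro v hv w hw hvw
    obtain ⟨-, t, ht, htv⟩ := hpat v hv
    obtain ⟨-, t', ht', htw⟩ := hpat w hw
    have hvw' : v = (t / t') • w := by
      ext i
      simp only [PiLp.smul_apply, smul_eq_mul]
      rw [htv i, htw i, hvw]
      field_simp
    have hwv' : w = (t' / t) • v := by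
      ext i
      simp only [PiLp.smul_apply, smul_eq_mul]
      rw [htv i, htw i, hvw]
      field_simp
    rcases lt_trichotomy t t' with h | h | h
    · exact absurd hvw' (hlt v hv w hw _ (div_pos ht ht') ((div_lt_one ht').2 h))
    · rw [hvw', h, div_self ht'.ne', one_smul]
    · exact absurd hwv' (hlt w hw v hv _ (div_pos ht' ht) ((div_lt_one ht).2 h))
  classical
  set B : Finset (Fin 3 → SignType) := hfin.toFinset.image pat with hB
  have hBcard : B.card = 12 := by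
    rw [hB, Finset.card_image_of_injOn (by
      intro a ha b hb
      exact hinj (by simpa using ha) (by simpa using hb)), ← hV,
      Set.ncard_eq_toFinset_card _ hfin]
  have hBsub : B ⊆ pats := by
    intro u hu
    rw [hB, Finset.mem_image] at hu
    obtain ⟨v, hv, rfl⟩ := hu
    exact (hpat v (by simpa using hv)).1
  have hBcl : ∀ km, ∀ u ∈ B, actp km u ∈ B := by
    intro km u hu
    rw [hB, Finset.mem_image] at hu ⊢
    obtain ⟨v, hv, rfl⟩ := hu
    refine ⟨rot km v, ?_, pat_rot km v⟩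
    simp only [Set.Finite.mem_toFinset] at hv ⊢
    exact hcl km v hv
  obtain ⟨u, hu, huB⟩ : ∃ u ∈ pats, u ∉ B := by
    by_contra hno
    push Not at hno
    have := Finset.card_le_card (show pats ⊆ B from hno)
    rw [pats_card, hBcard] at this
    omega
  have hB2 : B ⊆ pats.filter fun b => ∀ km, actp km b ≠ u := by
    intro b hb
    rw [Finset.mem_filter]
    refine ⟨hBsub hb, fun km h => huB ?_⟩
    rw [← h]
    exact hBcl km b hb
  have hdec : ∀ u ∈ pats, (pats.filter fun b => ∀ km, actp km b ≠ u).card ≤ 10 := by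
    decide +kernel
  have h1 := Finset.card_le_card hB2
  have h2 := hdec u hu
  omega

/-- coordinates of a functional -/
noncomputable def vec (l : StrongDual ℝ (Sp 3)) : Sp 3 :=
  WithLp.toLp 2 fun i => l (EuclideanSpace.single i 1)

lemma l_eq (l : StrongDual ℝ (Sp 3)) (w : Sp 3) : l w = ip (vec l) w := by
  have hdec : w = ∑ k : Fin 3, (w k) • EuclideanSpace.single k (1 : ℝ) := by
    ext c
    simp only [Fin.sum_univ_three]
    fin_cases c <;> simp
  conv_lhs => rw [hdec]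
  rw [map_sum, Fin.sum_univ_three]
  simp only [map_smul, smul_eq_mul, ip, vec]
  ring

lemma ip_zero (w : Sp 3) : ip 0 w = 0 := by simp [ip]

/-- the face of `P` in the direction of a sign pattern -/
def faceOf (P : Set (Sp 3)) (u : Fin 3 → SignType) : Set (Sp 3) :=
  {x | x ∈ P ∧ ∀ y ∈ P, ∑ i, (u i : ℝ) * y i ≤ ∑ i, (u i : ℝ) * x i}

lemma facets_sub {P : Set (Sp 3)} (hP : IsPolytope P) (hint : (interior P).Nonempty)
    (hinv : ∀ A ∈ fullGroup tetrahedron, A '' P = P) (hV : (vertices P).ncard = 12) :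
    facets P ⊆ faceOf P '' (pats : Set (Fin 3 → SignType)) := by
  obtain ⟨hfin, hhull⟩ := polytope_vertices hP
  have hcl' : ∀ e s, Even3 s → ∀ v ∈ vertices P, act e s v ∈ vertices P := by
    intro e s hs v hv
    exact vertex_image _ (hinv _ (act_pres hs)) hv
  have hcl : ∀ km, ∀ v ∈ vertices P, rot km v ∈ vertices P := by
    intro km v hv
    exact hcl' _ _ (sp_even km.2) v hv
  obtain ⟨v0, hv0, hv0s⟩ := exists_nonspecial hP hinv hV
  obtain ⟨e0, s0, hs0, hch⟩ := exists_chamber v0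
  set v := act e0 s0 v0 with hvdef
  have hv : v ∈ vertices P := hcl' _ _ hs0 _ hv0
  have hvs : ¬ Special v := fun h => hv0s (special_of_act h)
  have horb := orbit_eq hV hcl hv hvs
  have hbelow : ∀ w ∈ vertices P, Below v w := by
    intro w hw
    obtain ⟨km, rfl⟩ := horb w hw
    exact below_rot hch km
  have hdimP : dim P = 3 := by
    unfold dim
    have h1 : affineSpan ℝ P = ⊤ := by
      apply affineSpan_eq_top_of_nonempty_interior
      have hPc : Convex ℝ P := by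
        obtain ⟨S, rfl⟩ := hP
        exact convex_convexHull ℝ _
      rw [hPc.convexHull_eq]
      exact hint
    rw [← direction_affineSpan, h1, AffineSubspace.direction_top, finrank_top]
    simp
  intro F hF
  obtain ⟨hexp, hne, hdim⟩ := hF
  rw [hdimP] at hdim
  have hexp' := hexp
  rw [← hhull] at hexp'
  obtain ⟨l, M, h1, h2, h3⟩ := face_data hexp' hne
  rw [hhull] at h1 h2
  set n := vec l with hn
  have hln : ∀ w, l w = ip n w := fun w => l_eq l w
  -- the facet contains at least three vertices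
  have hcard : 3 ≤ (vertices P ∩ F).ncard := by
    by_contra hlt
    push Not at hlt
    have h4 := dim_le_of_ncard (hfin.subset Set.inter_subset_left) (k := 1)
      (show (vertices P ∩ F).ncard ≤ 1 + 1 by omega)
    rw [← h3] at h4
    omega
  have hn0 : n ≠ 0 := by
    intro h0
    have hl0 : ∀ w, l w = 0 := by
      intro w
      rw [hln, h0, ip_zero]
    obtain ⟨x0, hx0⟩ := hne
    rw [h2] at hx0
    have hFP : F = P := by
      rw [h2]
      ext x
      constructor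
      · exact fun hx => hx.1
      · intro hx
        refine ⟨hx, ?_⟩
        rw [← hx0.2, hl0, hl0]
    rw [hFP, hdimP] at hdim
    omega
  have hns : Special n := by
    by_contra hns
    obtain ⟨e, s, hs, hchn⟩ := exists_chamber n
    have hns' : ¬ Special (act e s n) := fun h => hns (special_of_act h)
    obtain ⟨r, hr⟩ := two_points (v := v) hchn hns'
    have hA := hinv _ (act_pres (e := e) hs)
    -- the preimage of `v`
    obtain ⟨v', hv', hv'v⟩ : ∃ v' ∈ P, act e s v' = v := by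
      have : v ∈ act e s '' P := by rw [hA]; exact mem_of_vertex hv
      exact this
    have hmap : ∀ w ∈ vertices P ∩ F, act e s w = v ∨ act e s w = r := by
      rintro w ⟨hw, hwF⟩
      apply hr
      · exact hbelow _ (hcl' _ _ hs _ hw)
      · rw [← hv'v, ip_act, ip_act, ← hln, ← hln]
        rw [h2] at hwF
        rw [hwF.2]
        exact h1 _ hv'
    have hsub : act e s '' (vertices P ∩ F) ⊆ {v, r} := by
      rintro _ ⟨w, hw, rfl⟩
      exact hmap w hw
    have h5 := Set.ncard_le_ncard hsub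
    rw [Set.ncard_image_of_injective _ (act e s).injective] at h5
    have h6 : ({v, r} : Set (Sp 3)).ncard ≤ 2 := by
      have := Set.ncard_insert_le v ({r} : Set (Sp 3))
      rw [Set.ncard_singleton] at this
      exact this
    omega
  obtain ⟨hpat, t, ht, htn⟩ := special_pat hns hn0
  refine ⟨pat n, hpat, ?_⟩
  have hlt : ∀ w, l w = t * ∑ i, (pat n i : ℝ) * w i := by
    intro w
    rw [hln, ip, htn 0, htn 1, htn 2, Fin.sum_univ_three]
    ring
  obtain ⟨x0, hx0⟩ := hne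
  rw [h2] at hx0
  ext x
  unfold faceOf
  rw [h2]
  constructor
  · rintro ⟨hx, hmax⟩
    refine ⟨hx, le_antisymm (h1 x hx) ?_⟩
    rw [← hx0.2, hlt, hlt]
    exact mul_le_mul_of_nonneg_left (hmax x0 hx0.1) ht.le
  · rintro ⟨hx, hM⟩
    refine ⟨hx, fun y hy => ?_⟩
    have h7 := h1 y hy
    rw [← hM, hlt, hlt] at h7
    exact le_of_mul_le_mul_left h7 ht

theorem not_mem_full : (12, 20) ∉ fvecs (fullGroup tetrahedron) := by
  rintro ⟨P, hP, hint, hinv, hV, hF⟩
  have h1 := facets_sub hP hint hinv hV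
  have h2 := Set.ncard_le_ncard h1 (Set.toFinite _)
  have h3 : (faceOf P '' (pats : Set (Fin 3 → SignType))).ncard ≤ 14 := by
    rw [← pats_card, ← Set.ncard_coe_finset]
    exact Set.ncard_image_le (Set.toFinite _)
  change (facets P).ncard = 20 at hF
  omega

/-- The f-vector `(12, 20)` of the icosahedron is realized with rotational tetrahedral symmetry
but not with full tetrahedral symmetry; in particular `F(T̂) ≠ F(T)`. -/
theorem result : (12, 20) ∈ fvecs (rotGroup tetrahedron) ∧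
    (12, 20) ∉ fvecs (fullGroup tetrahedron) :=
  ⟨mem_T, not_mem_full⟩

end Pool.Agent.Results.MP_52b7e0_co.TetrahedralGap
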